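import Pool.Agent.H20.DyadD

set_option autoImplicit false

namespace Pool.Agent.Results.MP_158c61_gt.CantorCube

open Topology Pool.Agent.H20.Dyad

/-- A compact space is dyadic when it is a continuous image of a Cantor cube. -/
def Dyadic (X : Type) [TopologicalSpace X] : Prop :=
  ∃ (κ : Type) (g : (κ → Bool) → X), Continuous g ∧ Function.Surjective g

/-- There is a non-metrizable dyadic compact space `X` (the Cantor cube of weight continuum)
such that every subspace of `C_p(X)` is subparacompact, and in particular `C_p(X)` is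
subparacompact. -/
theorem result : ∃ (X : Type) (_ : TopologicalSpace X), CompactSpace X ∧ T2Space X ∧ Dyadic X ∧
    ¬ TopologicalSpace.MetrizableSpace X ∧ (∀ Y : Set (Cp X), Subparacompact Y) ∧
    Subparacompact (Cp X) := by
  refine ⟨Cube, inferInstance, inferInstance, inferInstance,
    ⟨Idx, fun x => x, continuous_id, fun x => ⟨x, rfl⟩⟩, not_metrizable, subpara, ?_⟩
  intro U hU hcov
  obtain ⟨F, h1, h2, h3⟩ := subpara Set.univ ((fun A => Subtype.val ⁻¹' A) '' U)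
    (by
      rintro _ ⟨A, hA, rfl⟩
      exact (hU A hA).preimage continuous_subtype_val)
    (by
      intro z
      obtain ⟨A, hA, hz⟩ := hcov z.1
      exact ⟨_, ⟨A, hA, rfl⟩, hz⟩)
  refine ⟨fun n => (fun B : Set (Set.univ : Set (Cp Cube)) => Subtype.val '' B) '' F n,
    ?_, ?_, ?_⟩
  · intro n z
    obtain ⟨V, hV, h⟩ := h1 n ⟨z, Set.mem_univ _⟩
    refine ⟨Subtype.val '' V, ?_, ?_⟩
    · exact (isOpen_univ.isOpenEmbedding_subtypeVal).image_mem_nhds.mpr hV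
    · rintro _ ⟨A, hA, rfl⟩ _ ⟨B, hB, rfl⟩ ⟨y, ⟨a, ha, rfl⟩, ⟨b, hb, hab⟩⟩
        ⟨y', ⟨a', ha', rfl⟩, ⟨b', hb', hab'⟩⟩
      have e1 : b = a := Subtype.ext hab
      have e2 : b' = a' := Subtype.ext hab'
      rw [h A hA B hB ⟨a, ha, e1 ▸ hb⟩ ⟨a', ha', e2 ▸ hb'⟩]
  · rintro n _ ⟨B, hB, rfl⟩
    obtain ⟨hc, _, ⟨A, hA, rfl⟩, hBA⟩ := h2 n B hB
    refine ⟨(isClosed_univ.isClosedEmbedding_subtypeVal).isClosedMap _ hc, A, hA, ?_⟩
    rintro _ ⟨y, hy, rfl⟩
    exact hBA hy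
  · intro z
    obtain ⟨n, B, hB, hz⟩ := h3 ⟨z, Set.mem_univ _⟩
    exact ⟨n, _, ⟨B, hB, rfl⟩, ⟨_, hz, rfl⟩⟩

end Pool.Agent.Results.MP_158c61_gt.CantorCube
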